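import Mathlib

/-! Independent events: exponential bounds and the strong law with an error term for the number of the
events of an increasing sequence of finite sets of indices which occur. -/

set_option autoImplicit false
set_option linter.unusedSectionVars false

open MeasureTheory ProbabilityTheory Filter Topology Finset

namespace Pool.Agent.U442.WP

/-- `X i` are the indicators of independent events of probability `g i` -/
structure Bern {Ω ι : Type*} [MeasurableSpace Ω] (μ : Measure Ω) (X : ι → Ω → ℝ) (g : ι → ℝ) :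
    Prop where
  meas : ∀ i, Measurable (X i)
  val : ∀ i ω, X i ω = 0 ∨ X i ω = 1
  indep : iIndepFun X μ
  mean : ∀ i, ∫ ω, X i ω ∂μ = g i

variable {Ω ι : Type*} [MeasurableSpace Ω] {μ : Measure Ω} [IsProbabilityMeasure μ]
  {X : ι → Ω → ℝ} {g : ι → ℝ}

namespace Bern

lemma integrable (h : Bern μ X g) (i : ι) : Integrable (X i) μ := by
  refine Integrable.of_bound (C := 1) (h.meas i).aestronglyMeasurable (ae_of_all _ fun ω => ?_)
  rcases h.val i ω with h1 | h1 <;> rw [h1] <;> norm_num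

lemma nonneg (h : Bern μ X g) (i : ι) : 0 ≤ g i := by
  rw [← h.mean i]
  refine integral_nonneg fun ω => ?_
  rcases h.val i ω with h1 | h1 <;> rw [h1] <;> norm_num

lemma le_one (h : Bern μ X g) (i : ι) : g i ≤ 1 := by
  rw [← h.mean i]
  have h1 : ∫ ω, X i ω ∂μ ≤ ∫ _ω, (1 : ℝ) ∂μ := by
    refine integral_mono (h.integrable i) (integrable_const 1) fun ω => ?_
    rcases h.val i ω with h1 | h1 <;> simp only [h1] <;> norm_num
  simpa using h1

lemma exp_eq (h : Bern μ X g) (i : ι) (t : ℝ) (ω : Ω) :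
    Real.exp (t * X i ω) = 1 + (Real.exp t - 1) * X i ω := by
  rcases h.val i ω with h1 | h1 <;> rw [h1] <;> simp

lemma mgf_eq (h : Bern μ X g) (i : ι) (t : ℝ) : mgf (X i) μ t = 1 + (Real.exp t - 1) * g i := by
  unfold mgf
  simp only [h.exp_eq i t]
  rw [integral_add (integrable_const _) ((h.integrable i).const_mul _), integral_const_mul,
    h.mean i]
  simp

lemma sum_bound (h : Bern μ X g) (T : Finset ι) (ω : Ω) :
    0 ≤ ∑ i ∈ T, X i ω ∧ ∑ i ∈ T, X i ω ≤ T.card := by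
  constructor
  · refine sum_nonneg fun i _ => ?_
    rcases h.val i ω with h1 | h1 <;> rw [h1] <;> norm_num
  · have : ∑ i ∈ T, X i ω ≤ ∑ _i ∈ T, (1 : ℝ) := by
      refine sum_le_sum fun i _ => ?_
      rcases h.val i ω with h1 | h1 <;> rw [h1] <;> norm_num
    simpa using this

lemma integrable_exp (h : Bern μ X g) (T : Finset ι) (t : ℝ) :
    Integrable (fun ω => Real.exp (t * (∑ i ∈ T, X i) ω)) μ := by
  refine Integrable.of_bound (C := Real.exp (|t| * T.card)) ?_ (ae_of_all _ fun ω => ?_)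
  · refine (Measurable.exp ?_).aestronglyMeasurable
    refine Measurable.const_mul ?_ _
    have h1 := Finset.measurable_sum T fun i _ => h.meas i
    convert h1 using 1
    ext ω
    simp
  · rw [Real.norm_eq_abs, Real.abs_exp, Real.exp_le_exp]
    obtain ⟨h1, h2⟩ := h.sum_bound T ω
    rw [Finset.sum_apply]
    refine (le_abs_self _).trans ?_
    rw [abs_mul, abs_of_nonneg h1]
    exact mul_le_mul_of_nonneg_left h2 (abs_nonneg t)

lemma mgf_le (h : Bern μ X g) (T : Finset ι) (t : ℝ) :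
    mgf (∑ i ∈ T, X i) μ t ≤ Real.exp ((Real.exp t - 1) * ∑ i ∈ T, g i) := by
  rw [h.indep.mgf_sum h.meas, mul_sum, Real.exp_sum]
  refine prod_le_prod (fun i _ => mgf_nonneg) fun i _ => ?_
  rw [h.mgf_eq i t]
  have := Real.add_one_le_exp ((Real.exp t - 1) * g i)
  linarith

/-- the upper tail -/
lemma upper (h : Bern μ X g) (T : Finset ι) {t : ℝ} (ht0 : 0 ≤ t) (ht1 : t ≤ 1) (l : ℝ) :
    μ.real {ω | ∑ i ∈ T, g i + l ≤ ∑ i ∈ T, X i ω} ≤
      Real.exp (t ^ 2 * ∑ i ∈ T, g i - t * l) := by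
  have h1 := measure_ge_le_exp_mul_mgf (μ := μ) (X := ∑ i ∈ T, X i) (∑ i ∈ T, g i + l) ht0
    (h.integrable_exp T t)
  have h2 : {ω | ∑ i ∈ T, g i + l ≤ (∑ i ∈ T, X i) ω} = {ω | ∑ i ∈ T, g i + l ≤ ∑ i ∈ T, X i ω} := by
    ext ω
    simp only [Finset.sum_apply]
  rw [h2] at h1
  refine h1.trans ?_
  have h3 := mul_le_mul_of_nonneg_left (h.mgf_le T t) (Real.exp_pos (-t * (∑ i ∈ T, g i + l))).le
  refine h3.trans ?_
  rw [← Real.exp_add, Real.exp_le_exp]
  have h4 := Real.abs_exp_sub_one_sub_id_le (x := t) (by rw [abs_of_nonneg ht0]; exact ht1)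
  have h5 := (abs_le.1 h4).2
  have hG : 0 ≤ ∑ i ∈ T, g i := sum_nonneg fun i _ => h.nonneg i
  nlinarith [mul_le_mul_of_nonneg_right h5 hG]

/-- the lower tail -/
lemma lower (h : Bern μ X g) (T : Finset ι) {t : ℝ} (ht0 : 0 ≤ t) (ht1 : t ≤ 1) (l : ℝ) :
    μ.real {ω | ∑ i ∈ T, X i ω ≤ ∑ i ∈ T, g i - l} ≤
      Real.exp (t ^ 2 * ∑ i ∈ T, g i - t * l) := by
  have h1 := measure_le_le_exp_mul_mgf (μ := μ) (X := ∑ i ∈ T, X i) (t := -t)
    (∑ i ∈ T, g i - l) (by linarith) (h.integrable_exp T (-t))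
  have h2 : {ω | (∑ i ∈ T, X i) ω ≤ ∑ i ∈ T, g i - l} = {ω | ∑ i ∈ T, X i ω ≤ ∑ i ∈ T, g i - l} := by
    ext ω
    simp only [Finset.sum_apply]
  rw [h2] at h1
  refine h1.trans ?_
  have h3 := mul_le_mul_of_nonneg_left (h.mgf_le T (-t))
    (Real.exp_pos (-(-t) * (∑ i ∈ T, g i - l))).le
  refine h3.trans ?_
  rw [← Real.exp_add, Real.exp_le_exp]
  have h4 := Real.abs_exp_sub_one_sub_id_le (x := -t) (by rw [abs_neg, abs_of_nonneg ht0]; exact ht1)
  have h5 := (abs_le.1 h4).2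
  have hG : 0 ≤ ∑ i ∈ T, g i := sum_nonneg fun i _ => h.nonneg i
  nlinarith [mul_le_mul_of_nonneg_right h5 hG]

/-- both tails -/
lemma tails (h : Bern μ X g) (T : Finset ι) {t : ℝ} (ht0 : 0 ≤ t) (ht1 : t ≤ 1) (l : ℝ) :
    μ.real {ω | l ≤ |∑ i ∈ T, X i ω - ∑ i ∈ T, g i|} ≤
      2 * Real.exp (t ^ 2 * ∑ i ∈ T, g i - t * l) := by
  have h1 : {ω | l ≤ |∑ i ∈ T, X i ω - ∑ i ∈ T, g i|} ⊆
      {ω | ∑ i ∈ T, g i + l ≤ ∑ i ∈ T, X i ω} ∪ {ω | ∑ i ∈ T, X i ω ≤ ∑ i ∈ T, g i - l} := by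
    intro ω hω
    rw [Set.mem_ofPred_eq, le_abs] at hω
    rcases hω with h2 | h2
    · left
      rw [Set.mem_ofPred_eq]
      linarith
    · right
      rw [Set.mem_ofPred_eq]
      linarith
  have h2 := (measureReal_mono h1).trans (measureReal_union_le (μ := μ) _ _)
  have h3 := h.upper T ht0 ht1 l
  have h4 := h.lower T ht0 ht1 l
  linarith

end Bern

end Pool.Agent.U442.WP
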