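import Pool.Agent.U442.WP.Om

/-! The dichotomy: finitely many or infinitely many of the conditions hold. -/

set_option autoImplicit false
set_option linter.unusedSectionVars false

open MeasureTheory ProbabilityTheory Filter Topology Finset
open scoped Classical ENNReal

namespace Pool.Agent.U442.WP

lemma VS_mono (S : Set ℕ) : Monotone (VS S) := by
  refine monotone_nat_of_le_succ fun y => sum_le_sum_of_subset_of_nonneg ?_ fun _ _ _ => by positivity
  intro p hp
  rw [mem_filter, mem_Icc] at hp ⊢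
  exact ⟨⟨hp.1.1, by omega⟩, hp.2⟩

lemma meas_set (A : Pr → ℕ → Prop) (p : Pr) : MeasurableSet {ω : Om | A p (ω p : ℕ)} := by
  have h : MeasurableSet ((fun ω : Om => ω p) ⁻¹' {x : Fin ((p : ℕ) ^ 2) | A p (x : ℕ)}) :=
    measurable_pi_apply p (Set.toFinite _).measurableSet
  exact h

lemma mu_set (A : Pr → ℕ → Prop) (p : Pr) :
    mu {ω : Om | A p (ω p : ℕ)} = ENNReal.ofReal (dn A p) := by
  rw [← mean_Xi]
  have h1 : Xi A p = Set.indicator {ω : Om | A p (ω p : ℕ)} 1 := by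
    ext ω
    unfold Xi
    by_cases h : A p (ω p : ℕ)
    · rw [if_pos h, Set.indicator_of_mem (show ω ∈ _ from h)]
      rfl
    · rw [if_neg h, Set.indicator_of_notMem (show ω ∉ _ from h)]
  rw [h1, integral_indicator_one (meas_set A p), measureReal_def, ENNReal.ofReal_toReal (measure_ne_top _ _)]

/-- convergence -/
theorem finite_A {A : Pr → ℕ → Prop} (hA : One A) {S : Set ℕ} (hS : ¬ Tendsto (VS S) atTop atTop) :
    ∀ᵐ ω ∂mu, {p : Pr | (p : ℕ) ∈ S ∧ A p (ω p : ℕ)}.Finite := by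
  obtain ⟨l, hl⟩ : ∃ l, Tendsto (VS S) atTop (𝓝 l) :=
    (tendsto_atTop_of_monotone (VS_mono S)).resolve_left hS
  have hle : ∀ y, VS S y ≤ l := fun y => (VS_mono S).ge_of_tendsto hl y
  have h := ae_finite_setOfPred_mem (μ := mu)
    (s := fun p : Pr => {ω : Om | (p : ℕ) ∈ S ∧ A p (ω p : ℕ)}) ?_
  · filter_upwards [h] with ω hω
    exact hω
  refine ne_top_of_le_ne_top (b := ENNReal.ofReal (l + 2)) ENNReal.ofReal_ne_top ?_
  rw [ENNReal.tsum_eq_iSup_sum]
  refine iSup_le fun F => ?_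
  set y := F.sup (fun p : Pr => (p : ℕ)) with hy
  have h1 : ∑ p ∈ F, mu {ω : Om | (p : ℕ) ∈ S ∧ A p (ω p : ℕ)} ≤
      ∑ p ∈ TS S y, ENNReal.ofReal (dn A p) := by
    have h2 : ∑ p ∈ F, mu {ω : Om | (p : ℕ) ∈ S ∧ A p (ω p : ℕ)} =
        ∑ p ∈ F.filter (fun p : Pr => (p : ℕ) ∈ S), ENNReal.ofReal (dn A p) := by
      rw [sum_filter]
      refine sum_congr rfl fun p _ => ?_
      split_ifs with hp
      · rw [← mu_set]
        congr 1
        ext ω
        exact ⟨fun h => h.2, fun h => ⟨hp, h⟩⟩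
      · have : {ω : Om | (p : ℕ) ∈ S ∧ A p (ω p : ℕ)} = ∅ := by
          ext ω
          exact ⟨fun h => hp h.1, fun h => h.elim⟩
        rw [this, measure_empty]
    rw [h2]
    refine sum_le_sum_of_subset fun p hp => ?_
    rw [mem_filter] at hp
    rw [mem_TS]
    exact ⟨le_sup (f := fun p : Pr => (p : ℕ)) hp.1, hp.2⟩
  refine h1.trans ?_
  rw [← ENNReal.ofReal_sum_of_nonneg fun p _ => (bern A).nonneg p]
  refine ENNReal.ofReal_le_ofReal ?_
  have h2 := (abs_le.1 (G_close hA S y)).2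
  have h3 := hle y
  linarith

lemma sum_Xi (A : Pr → ℕ → Prop) (T : Finset Pr) (ω : Om) :
    ∑ p ∈ T, Xi A p ω = ((T.filter fun p => A p (ω p : ℕ)).card : ℝ) := by
  unfold Xi
  rw [sum_boole]

/-- half of the mean -/
lemma half_mean {V N : ℝ} (hV : 0 < V) (hl : Real.log V ≤ V / 144)
    (hN : |N - V| ≤ 6 * √(V * Real.log V)) : V / 2 ≤ N := by
  have h1 : √(V * Real.log V) ≤ V / 12 := by
    rw [Real.sqrt_le_left (by positivity)]
    nlinarith
  have := (abs_le.1 hN).1
  linarith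

theorem infinite_of {A : Pr → ℕ → Prop} {S : Set ℕ} (hS : Tendsto (VS S) atTop atTop) {ω : Om}
    (h : ∀ᶠ y in atTop, |∑ p ∈ TS S y, Xi A p ω - VS S y| ≤ 6 * √(VS S y * Real.log (VS S y))) :
    {p : Pr | (p : ℕ) ∈ S ∧ A p (ω p : ℕ)}.Infinite := by
  intro hfin
  have hlog : ∀ᶠ y in atTop, Real.log (VS S y) ≤ VS S y / 144 := by
    have h1 := (Real.isLittleO_log_id_atTop.def (show (0 : ℝ) < 1 / 144 by norm_num)).and
      (eventually_ge_atTop 1)
    filter_upwards [hS.eventually h1] with y hy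
    have h2 := hy.1
    simp only [id, Real.norm_eq_abs] at h2
    have h3 := (le_abs_self _).trans h2
    rw [abs_of_nonneg (by linarith [hy.2])] at h3
    linarith
  have hbig := hS.eventually_gt_atTop (2 * (hfin.toFinset.card : ℝ) + 1)
  obtain ⟨y, h1, h2, h3⟩ := (h.and (hlog.and hbig)).exists
  have hc0 : (0 : ℝ) ≤ hfin.toFinset.card := Nat.cast_nonneg _
  have h4 := half_mean (by linarith) h2 h1
  rw [sum_Xi] at h4
  have h5 : ((TS S y).filter fun p => A p (ω p : ℕ)).card ≤ hfin.toFinset.card := by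
    refine card_le_card fun p hp => ?_
    rw [mem_filter, mem_TS] at hp
    rw [Set.Finite.mem_toFinset]
    exact ⟨hp.1.2, hp.2⟩
  have h6 : (((TS S y).filter fun p => A p (ω p : ℕ)).card : ℝ) ≤ hfin.toFinset.card := by
    exact_mod_cast h5
  linarith

end Pool.Agent.U442.WP
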