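import Pool.Agent.U442.WP.Cv
import Pool.Agent.Helper92K9.WI.Per

/-! The residues of an integer, and proportions of integers. -/

set_option autoImplicit false
set_option linter.unusedSectionVars false

open MeasureTheory ProbabilityTheory Filter Topology Finset
open scoped Classical ENNReal

namespace Pool.Agent.U442.WP

/-- the residues of an integer -/
def res (a : ℕ) : Om := fun p => ⟨a % (p : ℕ) ^ 2, Nat.mod_lt _ (pow_pos p.2.pos 2)⟩

/-- the modulus -/
def md (P : Finset Pr) : ℕ := ∏ p ∈ P, (p : ℕ) ^ 2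

lemma md_pos (P : Finset Pr) : 0 < md P := prod_pos fun p _ => pow_pos p.2.pos 2

/-- the cylinder of an integer -/
def cyl (P : Finset Pr) (a : ℕ) : Set Om := Set.pi (P : Set Pr) fun p => {res a p}

lemma meas_cyl (P : Finset Pr) (a : ℕ) : MeasurableSet (cyl P a) :=
  MeasurableSet.pi (Set.to_countable _) fun p _ => measurableSet_singleton _

lemma mu_cyl (P : Finset Pr) (a : ℕ) : mu (cyl P a) = (md P : ℝ≥0∞)⁻¹ := by
  unfold mu cyl
  rw [Measure.infinitePi_pi (fun p : Pr => uniformOn (Set.univ : Set (Fin ((p : ℕ) ^ 2))))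
    (fun p _ => measurableSet_singleton _)]
  have h1 : ∀ p ∈ P, (uniformOn (Set.univ : Set (Fin ((p : ℕ) ^ 2)))) {res a p} =
      (((p : ℕ) ^ 2 : ℕ) : ℝ≥0∞)⁻¹ := by
    intro p _
    rw [uniformOn_univ, Measure.count_singleton, Fintype.card_fin, one_div]
  rw [prod_congr rfl h1, md, Nat.cast_prod, ENNReal.prod_inv_distrib]
  intro p _ q _ _
  left
  simp [p.2.ne_zero]

lemma res_inj {P : Finset Pr} {a a' : ℕ} (ha : a < md P) (ha' : a' < md P)
    (h : ∀ p ∈ P, res a p = res a' p) : a = a' := by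
  have h1 : ∀ p ∈ P, ((p : ℕ) ^ 2 : ℕ) ∣ Int.natAbs ((a : ℤ) - a') := by
    intro p hp
    have h2 := congrArg Fin.val (h p hp)
    have h3 : a ≡ a' [MOD (p : ℕ) ^ 2] := h2
    have h4 := (Nat.modEq_iff_dvd.1 h3.symm)
    have h5 := Int.natAbs_dvd_natAbs.2 h4
    simpa using h5
  have h2 : md P ∣ Int.natAbs ((a : ℤ) - a') := by
    unfold md
    refine Finset.prod_dvd_of_isRelPrime ?_ h1
    intro p _ q _ hpq
    have h3 : (p : ℕ) ≠ q := fun h => hpq (Subtype.ext h)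
    have h4 : Nat.Coprime ((p : ℕ) ^ 2) ((q : ℕ) ^ 2) :=
      Nat.Coprime.pow 2 2 ((Nat.coprime_primes p.2 q.2).2 h3)
    exact Nat.coprime_iff_isRelPrime.1 h4
  have h3 : Int.natAbs ((a : ℤ) - a') < md P := by omega
  have h4 := Nat.eq_zero_of_dvd_of_lt h2 h3
  omega

/-- the number of residues in a set is bounded by the measure -/
lemma card_le (P : Finset Pr) (B : Set Om)
    (hB : ∀ ω ω' : Om, (∀ p ∈ P, ω p = ω' p) → (ω ∈ B ↔ ω' ∈ B)) :
    (((range (md P)).filter fun a => res a ∈ B).card : ℝ) ≤ md P * mu.real B := by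
  have hdis : Set.PairwiseDisjoint (((range (md P)).filter fun a => res a ∈ B : Finset ℕ) : Set ℕ)
      (cyl P) := by
    intro a ha a' ha' hne
    rw [Function.onFun, Set.disjoint_left]
    intro ω h1 h2
    apply hne
    rw [mem_coe, mem_filter, mem_range] at ha ha'
    refine res_inj ha.1 ha'.1 fun p hp => ?_
    have e1 : ω p = res a p := h1 p hp
    have e2 : ω p = res a' p := h2 p hp
    rw [← e1, e2]
  have h1 := measure_biUnion_finset (μ := mu) hdis (fun a _ => meas_cyl P a)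
  have h2 : (⋃ a ∈ (range (md P)).filter fun a => res a ∈ B, cyl P a) ⊆ B := by
    intro ω hω
    simp only [Set.mem_iUnion] at hω
    obtain ⟨a, ha, h3⟩ := hω
    rw [mem_filter] at ha
    exact (hB ω (res a) fun p hp => h3 p hp).2 ha.2
  have h3 := measure_mono (μ := mu) h2
  rw [h1, sum_congr rfl fun a _ => mu_cyl P a, sum_const, nsmul_eq_mul] at h3
  have h4 := ENNReal.toReal_mono (measure_ne_top _ _) h3
  rw [ENNReal.toReal_mul, ENNReal.toReal_inv, ENNReal.toReal_natCast, ENNReal.toReal_natCast] at h4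
  have hM : (0 : ℝ) < md P := by exact_mod_cast md_pos P
  rw [measureReal_def]
  rw [← div_eq_mul_inv, div_le_iff₀ hM] at h4
  linarith

lemma res_add (P : Finset Pr) (a : ℕ) {p : Pr} (hp : p ∈ P) : res (a + md P) p = res a p := by
  refine Fin.ext ?_
  show (a + md P) % (p : ℕ) ^ 2 = a % (p : ℕ) ^ 2
  obtain ⟨c, hc⟩ : (p : ℕ) ^ 2 ∣ md P := dvd_prod_of_mem (fun p : Pr => (p : ℕ) ^ 2) hp
  rw [hc, Nat.add_mul_mod_self_left]

/-- proportion of integers -/
lemma prop_le (P : Finset Pr) (B : Set Om)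
    (hB : ∀ ω ω' : Om, (∀ p ∈ P, ω p = ω' p) → (ω ∈ B ↔ ω' ∈ B)) (X : ℕ) :
    (((Icc 1 X).filter fun a => res a ∈ B).card : ℝ) ≤ mu.real B * X + md P := by
  have hM : (0 : ℝ) < md P := by exact_mod_cast md_pos P
  have h1 := Helper92K9.WI.count_bound (fun a => res a ∈ B) (M := md P) (md_pos P)
    (fun a => hB _ _ fun p hp => res_add P a hp) rfl X
  have h2 := (abs_le.1 h1).2
  have h3 := card_le P B hB
  have h4 : (((range (md P)).filter fun a => res a ∈ B).card : ℝ) * X / md P ≤ mu.real B * X := by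
    rw [div_le_iff₀ hM]
    have : (0 : ℝ) ≤ X := Nat.cast_nonneg X
    nlinarith
  have h5 : (((range (md P)).filter fun a => res a ∈ B).card : ℝ) ≤ md P := by
    have := card_filter_le (range (md P)) fun a => res a ∈ B
    rw [card_range] at this
    exact_mod_cast this
  linarith

/-- the bad event -/
def bad (A : Pr → ℕ → Prop) (S : Set ℕ) (y : ℕ) : Set Om :=
  {ω | ¬ |∑ p ∈ TS S y, Xi A p ω - VS S y| ≤ 6 * √(VS S y * Real.log (VS S y))}

lemma meas_bad (A : Pr → ℕ → Prop) (S : Set ℕ) (y : ℕ) : MeasurableSet (bad A S y) := by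
  have h1 : Measurable fun ω : Om => ∑ p ∈ TS S y, Xi A p ω :=
    Finset.measurable_sum _ fun p _ => (bern A).meas p
  have h2 : bad A S y =
      {ω | |∑ p ∈ TS S y, Xi A p ω - VS S y| ≤ 6 * √(VS S y * Real.log (VS S y))}ᶜ := rfl
  rw [h2]
  exact (measurableSet_le (h1.sub_const _).abs measurable_const).compl

lemma bad_dep (A : Pr → ℕ → Prop) (S : Set ℕ) {y : ℕ} {ω ω' : Om}
    (h : ∀ p ∈ TS S y, ω p = ω' p) : ω ∈ bad A S y ↔ ω' ∈ bad A S y := by
  have : ∑ p ∈ TS S y, Xi A p ω = ∑ p ∈ TS S y, Xi A p ω' := by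
    refine sum_congr rfl fun p hp => ?_
    unfold Xi
    rw [h p hp]
  unfold bad
  simp only [Set.mem_ofPred_eq, this]

theorem small_tail {A : Pr → ℕ → Prop} (hA : One A) {S : Set ℕ} (hS : Tendsto (VS S) atTop atTop)
    {ε : ℝ} (hε : 0 < ε) : ∃ y₀ : ℕ, mu.real (⋃ y ≥ y₀, bad A S y) ≤ ε := by
  have h1 := tendsto_measure_iInter_atTop (μ := mu) (s := fun n : ℕ => ⋃ y ≥ n, bad A S y)
    (fun n => (MeasurableSet.biUnion (Set.to_countable _) fun y _ => meas_bad A S y).nullMeasurableSet)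
    (fun m n hmn => Set.biUnion_subset_biUnion_left fun y hy => le_trans hmn hy)
    ⟨0, measure_ne_top _ _⟩
  have h2 : mu (⋂ n : ℕ, ⋃ y ≥ n, bad A S y) = 0 := by
    have h3 := strong_A hA hS
    rw [ae_iff] at h3
    refine measure_mono_null (fun ω hω => ?_) h3
    intro h4
    obtain ⟨n, hn⟩ := eventually_atTop.1 h4
    rw [Set.mem_iInter] at hω
    have h5 := hω n
    simp only [Set.mem_iUnion] at h5
    obtain ⟨y, hy, h6⟩ := h5
    exact h6 (hn y hy)
  rw [h2] at h1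
  have h3 : Tendsto (fun n : ℕ => mu.real (⋃ y ≥ n, bad A S y)) atTop (𝓝 0) := by
    have := (ENNReal.tendsto_toReal ENNReal.zero_ne_top).comp h1
    rw [ENNReal.toReal_zero] at this
    exact this
  obtain ⟨n, hn⟩ := (h3.eventually (gt_mem_nhds hε)).exists
  exact ⟨n, hn.le⟩

/-- **the law for the integers** -/
theorem integers {A : Pr → ℕ → Prop} (hA : One A) {S : Set ℕ} (hS : Tendsto (VS S) atTop atTop)
    {ε : ℝ} (hε : 0 < ε) : ∃ y₀ : ℕ, ∀ Y : ℕ, ∃ X₀ : ℕ, ∀ X : ℕ, X₀ ≤ X →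
      (((Icc 1 X).filter fun a => ∃ y, y₀ ≤ y ∧ y ≤ Y ∧ res a ∈ bad A S y).card : ℝ) ≤ ε * X := by
  obtain ⟨y₀, h0⟩ := small_tail hA hS (half_pos hε)
  refine ⟨y₀, fun Y => ⟨⌈2 * (md (TS S Y) : ℝ) / ε⌉₊, fun X hX => ?_⟩⟩
  have h1 := prop_le (TS S Y) {ω | ∃ y, y₀ ≤ y ∧ y ≤ Y ∧ ω ∈ bad A S y} ?_ X
  · have h2 : mu.real {ω | ∃ y, y₀ ≤ y ∧ y ≤ Y ∧ ω ∈ bad A S y} ≤ ε / 2 := by
      refine (measureReal_mono ?_ (measure_ne_top _ _)).trans h0
      rintro ω ⟨y, hy1, _, hy3⟩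
      simp only [Set.mem_iUnion]
      exact ⟨y, hy1, hy3⟩
    have h3 : 2 * (md (TS S Y) : ℝ) / ε ≤ X := (Nat.le_ceil _).trans (by exact_mod_cast hX)
    rw [div_le_iff₀ hε] at h3
    have hX0 : (0 : ℝ) ≤ X := Nat.cast_nonneg X
    have h4 : mu.real {ω | ∃ y, y₀ ≤ y ∧ y ≤ Y ∧ ω ∈ bad A S y} * X ≤ ε / 2 * X := by gcongr
    refine h1.trans ?_
    linarith
  · intro ω ω' h
    refine exists_congr fun y => and_congr_right fun _ => and_congr_right fun hy => bad_dep A S ?_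
    intro p hp
    refine h p ?_
    rw [mem_TS] at hp ⊢
    exact ⟨hp.1.trans hy, hp.2⟩

end Pool.Agent.U442.WP
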