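import Pool.Agent.U442.WP.Sl

/-! Independent residues modulo the squares of the primes. -/

set_option autoImplicit false
set_option linter.unusedSectionVars false

open MeasureTheory ProbabilityTheory Filter Topology Finset
open scoped Classical

namespace Pool.Agent.U442.WP

/-- the prime numbers -/
abbrev Pr : Type := {p : ℕ // p.Prime}

instance instNeZeroSq (p : Pr) : NeZero ((p : ℕ) ^ 2) := ⟨pow_ne_zero _ p.2.ne_zero⟩

/-- residues modulo the squares of all primes -/
abbrev Om : Type := (p : Pr) → Fin ((p : ℕ) ^ 2)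

instance instUni (p : Pr) :
    IsProbabilityMeasure (uniformOn (Set.univ : Set (Fin ((p : ℕ) ^ 2)))) :=
  isProbabilityMeasure_uniformOn Set.finite_univ Set.univ_nonempty

/-- independent uniform residues -/
noncomputable def mu : Measure Om :=
  Measure.infinitePi fun p : Pr => uniformOn (Set.univ : Set (Fin ((p : ℕ) ^ 2)))

noncomputable instance : IsProbabilityMeasure mu := by
  unfold mu
  infer_instance

/-- the indicator of the condition `A` at `p` -/
noncomputable def Xi (A : Pr → ℕ → Prop) (p : Pr) (ω : Om) : ℝ :=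
  if A p (ω p : ℕ) then 1 else 0

/-- the proportion of the residues with the condition -/
noncomputable def dn (A : Pr → ℕ → Prop) (p : Pr) : ℝ :=
  (((range ((p : ℕ) ^ 2)).filter fun a => A p a).card : ℝ) / (p : ℝ) ^ 2

lemma measurable_coord (A : Pr → ℕ → Prop) (p : Pr) :
    Measurable (fun x : Fin ((p : ℕ) ^ 2) => if A p (x : ℕ) then (1 : ℝ) else 0) :=
  measurable_of_finite _

lemma mu_coord (p : Pr) (s : Set (Fin ((p : ℕ) ^ 2))) :
    mu ((fun ω : Om => ω p) ⁻¹' s) = uniformOn (Set.univ : Set (Fin ((p : ℕ) ^ 2))) s := by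
  unfold mu
  have h := measurePreserving_eval_infinitePi
    (μ := fun p : Pr => uniformOn (Set.univ : Set (Fin ((p : ℕ) ^ 2)))) p
  exact h.measure_preimage (MeasurableSet.nullMeasurableSet (Set.toFinite s).measurableSet)

lemma card_fin_filter (A : ℕ → Prop) (n : ℕ) :
    (univ.filter fun x : Fin n => A (x : ℕ)).card = ((range n).filter A).card := by
  refine card_bij (fun x _ => (x : ℕ)) ?_ ?_ ?_
  · intro x hx
    rw [mem_filter] at hx ⊢
    exact ⟨mem_range.2 x.2, hx.2⟩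
  · intro x _ y _ h
    exact Fin.ext h
  · intro a ha
    rw [mem_filter, mem_range] at ha
    exact ⟨⟨a, ha.1⟩, by simpa using ha.2, rfl⟩

lemma mean_Xi (A : Pr → ℕ → Prop) (p : Pr) : ∫ ω, Xi A p ω ∂mu = dn A p := by
  have h1 : Xi A p = Set.indicator ((fun ω : Om => ω p) ⁻¹' {x | A p (x : ℕ)}) 1 := by
    ext ω
    unfold Xi
    by_cases h : A p (ω p : ℕ)
    · rw [if_pos h, Set.indicator_of_mem (show ω ∈ _ from h)]
      rfl
    · rw [if_neg h, Set.indicator_of_notMem (show ω ∉ _ from h)]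
  have hm : MeasurableSet ((fun ω : Om => ω p) ⁻¹' {x | A p (x : ℕ)}) :=
    measurable_pi_apply p (Set.toFinite _).measurableSet
  rw [h1, integral_indicator_one hm, measureReal_def, mu_coord, uniformOn_univ]
  unfold dn
  have h2 : ({x : Fin ((p : ℕ) ^ 2) | A p (x : ℕ)} : Set _) =
      ((univ.filter fun x : Fin ((p : ℕ) ^ 2) => A p (x : ℕ)) : Finset _) := by
    ext x
    simp
  rw [h2, Measure.count_apply_finset, card_fin_filter, Fintype.card_fin]
  simp

theorem bern (A : Pr → ℕ → Prop) : Bern mu (Xi A) (dn A) where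
  meas p := (measurable_coord A p).comp (measurable_pi_apply p)
  val p ω := by
    unfold Xi
    split_ifs
    · right; rfl
    · left; rfl
  indep := by
    unfold mu
    exact iIndepFun_infinitePi (P := fun p : Pr =>
      uniformOn (Set.univ : Set (Fin ((p : ℕ) ^ 2)))) (X := fun p x => if A p (x : ℕ) then (1 : ℝ) else 0)
      fun p => measurable_coord A p
  mean := mean_Xi A

/-- the primes `p ≤ y` in `S` -/
noncomputable def TS (S : Set ℕ) (y : ℕ) : Finset Pr :=
  ((Icc 1 y).filter fun p => p ∈ S).preimage (fun p : Pr => (p : ℕ))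
    Subtype.val_injective.injOn

lemma mem_TS {S : Set ℕ} {y : ℕ} {p : Pr} : p ∈ TS S y ↔ (p : ℕ) ≤ y ∧ (p : ℕ) ∈ S := by
  unfold TS
  rw [mem_preimage, mem_filter, mem_Icc]
  have := p.2.one_lt.le
  tauto

lemma sum_TS (S : Set ℕ) (y : ℕ) (f : ℕ → ℝ) :
    ∑ p ∈ TS S y, f p = ∑ p ∈ (Icc 1 y).filter (fun p => p.Prime ∧ p ∈ S), f p := by
  refine sum_bij (fun p _ => (p : ℕ)) ?_ ?_ ?_ fun _ _ => rfl
  · intro p hp
    rw [mem_TS] at hp
    rw [mem_filter, mem_Icc]
    exact ⟨⟨p.2.one_lt.le, hp.1⟩, p.2, hp.2⟩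
  · intro p _ q _ h
    exact Subtype.ext h
  · intro n hn
    rw [mem_filter, mem_Icc] at hn
    exact ⟨⟨n, hn.2.1⟩, mem_TS.2 ⟨hn.1.2, hn.2.2⟩, rfl⟩

/-- the sum of the reciprocals -/
noncomputable def VS (S : Set ℕ) (y : ℕ) : ℝ :=
  ∑ p ∈ (Icc 1 y).filter (fun p => p.Prime ∧ p ∈ S), 1 / (p : ℝ)

lemma sum_sq_le (y : ℕ) : ∑ n ∈ Icc 2 y, 1 / (n : ℝ) ^ 2 ≤ 1 := by
  have h : ∀ y : ℕ, 1 ≤ y → ∑ n ∈ Icc 2 y, 1 / (n : ℝ) ^ 2 ≤ 1 - 1 / (y : ℝ) := by
    intro y hy
    induction y, hy using Nat.le_induction with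
    | base => simp
    | succ y hy ih =>
      rw [← insert_Icc_right_eq_Icc_add_one (by omega), sum_insert (by simp)]
      have hy0 : (0 : ℝ) < y := by exact_mod_cast hy
      have : (1 : ℝ) / ((y + 1 : ℕ) : ℝ) ^ 2 ≤ 1 / y - 1 / ((y + 1 : ℕ) : ℝ) := by
        push_cast
        rw [div_sub_div _ _ hy0.ne' (by positivity), div_le_div_iff₀ (by positivity) (by positivity)]
        nlinarith
      linarith
  by_cases hy : 1 ≤ y
  · exact (h y hy).trans (by
      have : (0 : ℝ) ≤ 1 / (y : ℝ) := by positivity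
      linarith)
  · rw [Icc_eq_empty (by omega)]
    simp

/-- the conditions with `p - 1` residues for odd `p` -/
def One (A : Pr → ℕ → Prop) : Prop := ∀ p : Pr, (p : ℕ) ≠ 2 →
  ((range ((p : ℕ) ^ 2)).filter fun a => A p a).card = p - 1

lemma dn_le_one (A : Pr → ℕ → Prop) (p : Pr) : dn A p ≤ 1 := (bern A).le_one p

lemma dn_eq {A : Pr → ℕ → Prop} (hA : One A) (p : Pr) (hp : (p : ℕ) ≠ 2) :
    dn A p = 1 / (p : ℝ) - 1 / (p : ℝ) ^ 2 := by
  unfold dn
  rw [hA p hp, Nat.cast_sub p.2.one_lt.le]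
  have : (p : ℝ) ≠ 0 := by exact_mod_cast p.2.ne_zero
  field_simp
  simp

lemma G_close {A : Pr → ℕ → Prop} (hA : One A) (S : Set ℕ) (y : ℕ) :
    |∑ p ∈ TS S y, dn A p - VS S y| ≤ 2 := by
  have h1 : ∑ p ∈ TS S y, dn A p - VS S y = ∑ p ∈ TS S y, (dn A p - 1 / (p : ℝ)) := by
    rw [sum_sub_distrib, VS, ← sum_TS S y (fun p => 1 / (p : ℝ))]
  have h2 : ∀ p ∈ TS S y, |dn A p - 1 / (p : ℝ)| ≤
      1 / (p : ℝ) ^ 2 + if (p : ℕ) = 2 then 1 else 0 := by
    intro p _
    have hp0 : (0 : ℝ) < p := by exact_mod_cast p.2.pos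
    have hsq : (0 : ℝ) ≤ 1 / (p : ℝ) ^ 2 := by positivity
    split_ifs with h
    · have h3 := dn_le_one A p
      have h4 := (bern A).nonneg p
      have h5 : (0 : ℝ) ≤ 1 / (p : ℝ) := by positivity
      have h6 : 1 / (p : ℝ) ≤ 1 := by
        rw [div_le_one hp0]
        exact_mod_cast p.2.one_lt.le
      rw [abs_le]
      constructor <;> linarith
    · rw [dn_eq hA p h, add_zero]
      rw [abs_le]
      constructor <;> linarith
  rw [h1]
  refine (abs_sum_le_sum_abs _ _).trans ((sum_le_sum h2).trans ?_)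
  rw [sum_add_distrib]
  have h3 : ∑ p ∈ TS S y, 1 / ((p : ℕ) : ℝ) ^ 2 ≤ 1 := by
    rw [sum_TS S y (fun p => 1 / (p : ℝ) ^ 2)]
    refine (sum_le_sum_of_subset_of_nonneg ?_ fun n _ _ => by positivity).trans (sum_sq_le y)
    intro p hp
    rw [mem_filter, mem_Icc] at hp
    rw [mem_Icc]
    exact ⟨hp.2.1.two_le, hp.1.2⟩
  have h4 : ∑ p ∈ TS S y, (if (p : ℕ) = 2 then (1 : ℝ) else 0) ≤ 1 := by
    rw [← sum_filter]
    have : (TS S y).filter (fun p : Pr => (p : ℕ) = 2) ⊆
        {(⟨2, Nat.prime_two⟩ : Pr)} := by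
      intro p hp
      rw [mem_filter] at hp
      rw [mem_singleton]
      exact Subtype.ext hp.2
    have h5 := card_le_card this
    rw [card_singleton] at h5
    rw [sum_const, nsmul_eq_mul, mul_one]
    exact_mod_cast h5
  linarith

lemma TS_zero (S : Set ℕ) : TS S 0 = ∅ := by
  ext p
  rw [mem_TS]
  have := p.2.one_lt
  simp
  omega

lemma TS_mono (S : Set ℕ) (y : ℕ) : TS S y ⊆ TS S (y + 1) := by
  intro p hp
  rw [mem_TS] at hp ⊢
  exact ⟨by omega, hp.2⟩

lemma TS_step (A : Pr → ℕ → Prop) (S : Set ℕ) (y : ℕ) :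
    ∑ p ∈ TS S (y + 1), dn A p ≤ ∑ p ∈ TS S y, dn A p + 1 := by
  rw [← sum_sdiff (TS_mono S y)]
  have h1 : ∑ p ∈ TS S (y + 1) \ TS S y, dn A p ≤ ((TS S (y + 1) \ TS S y).card : ℝ) := by
    have := sum_le_sum fun p (_ : p ∈ TS S (y + 1) \ TS S y) => dn_le_one A p
    simpa using this
  have h2 : (TS S (y + 1) \ TS S y).card ≤ 1 := by
    rw [card_le_one]
    intro p hp q hq
    obtain ⟨hp1, hp2⟩ := Finset.mem_sdiff.1 hp
    obtain ⟨hq1, hq2⟩ := Finset.mem_sdiff.1 hq
    rw [mem_TS] at hp1 hp2 hq1 hq2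
    refine Subtype.ext ?_
    have e1 : (p : ℕ) = y + 1 := by
      by_contra hc
      exact hp2 ⟨by omega, hp1.2⟩
    have e2 : (q : ℕ) = y + 1 := by
      by_contra hc
      exact hq2 ⟨by omega, hq1.2⟩
    show (p : ℕ) = (q : ℕ)
    rw [e1, e2]
  have h3 : ((TS S (y + 1) \ TS S y).card : ℝ) ≤ 1 := by exact_mod_cast h2
  linarith

lemma lev {A : Pr → ℕ → Prop} (hA : One A) {S : Set ℕ} (hS : Tendsto (VS S) atTop atTop) :
    Lev (TS S) (dn A) where
  zero := TS_zero S
  mono := TS_mono S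
  step := TS_step A S
  tend := by
    refine tendsto_atTop_mono (f := fun y => VS S y - 2) (fun y => ?_)
      (tendsto_atTop_add_const_right _ _ hS)
    have := (abs_le.1 (G_close hA S y)).1
    linarith

/-- comparison of the error terms -/
lemma err_le {G V N : ℝ} (hV : 258 ≤ V) (hGV : |G - V| ≤ 2) (hN : |N - G| ≤ 5 * √(G * Real.log G)) :
    |N - V| ≤ 6 * √(V * Real.log V) := by
  have hV0 : 0 < V := by linarith
  have hl1 : 1 ≤ Real.log V := by
    rw [Real.le_log_iff_exp_le hV0]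
    exact (Real.exp_one_lt_d9.le.trans (by norm_num)).trans hV
  rw [abs_le] at hGV
  have hG0 : 0 < G := by linarith
  have hG2 : G ≤ V + 2 := by linarith
  have hlG : Real.log G ≤ Real.log V + 2 / V := by
    have h9 := Real.log_le_sub_one_of_pos (show 0 < G / V by positivity)
    rw [Real.log_div hG0.ne' hV0.ne'] at h9
    have : G / V - 1 ≤ 2 / V := by
      rw [sub_le_iff_le_add, div_add_one hV0.ne']
      gcongr
      linarith
    linarith
  have hlG0 : 0 ≤ Real.log G := Real.log_nonneg (by linarith)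
  have hs1 : √(G * Real.log G) ≤ √(V * Real.log V) + √(2 * Real.log V + 3) := by
    rw [Real.sqrt_le_left (by positivity)]
    have e1 := Real.sq_sqrt (show (0 : ℝ) ≤ V * Real.log V by positivity)
    have e2 := Real.sq_sqrt (show (0 : ℝ) ≤ 2 * Real.log V + 3 by positivity)
    have e3 : G * Real.log G ≤ (V + 2) * (Real.log V + 2 / V) := by gcongr
    have e4 : (V + 2) * (Real.log V + 2 / V) = V * Real.log V + 2 * Real.log V + 2 + 4 / V := by
      field_simp
      ring
    have e5 : 4 / V ≤ 1 := by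
      rw [div_le_one hV0]
      linarith
    nlinarith [Real.sqrt_nonneg (V * Real.log V), Real.sqrt_nonneg (2 * Real.log V + 3)]
  have hs2 : 2 + 5 * √(2 * Real.log V + 3) ≤ √(V * Real.log V) := by
    refine Real.le_sqrt_of_sq_le ?_
    have e2 := Real.sq_sqrt (show (0 : ℝ) ≤ 2 * Real.log V + 3 by positivity)
    have e3 : (2 + 5 * √(2 * Real.log V + 3)) ^ 2 ≤ 8 + 50 * √(2 * Real.log V + 3) ^ 2 := by
      nlinarith [sq_nonneg (2 - 5 * √(2 * Real.log V + 3))]
    nlinarith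
  rw [abs_le] at hN ⊢
  constructor <;> linarith

/-- **the strong law for a sequence of conditions** -/
theorem strong_A {A : Pr → ℕ → Prop} (hA : One A) {S : Set ℕ}
    (hS : Tendsto (VS S) atTop atTop) :
    ∀ᵐ ω ∂mu, ∀ᶠ y in atTop, |∑ p ∈ TS S y, Xi A p ω - VS S y| ≤ 6 * √(VS S y * Real.log (VS S y)) := by
  filter_upwards [(bern A).strong (lev hA hS)] with ω hω
  filter_upwards [hω, hS.eventually_ge_atTop 258] with y h1 h2
  exact err_le h2 (G_close hA S y) h1

end Pool.Agent.U442.WP
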