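import Pool.Agent.U442.WP.Ch

/-! The strong law with an error term, for the number of the events of an increasing sequence of finite
sets of indices which occur. -/

set_option autoImplicit false
set_option linter.unusedSectionVars false

open MeasureTheory ProbabilityTheory Filter Topology Finset

namespace Pool.Agent.U442.WP

variable {Ω ι : Type*} [MeasurableSpace Ω] {μ : Measure Ω} [IsProbabilityMeasure μ]
  {X : ι → Ω → ℝ} {g : ι → ℝ}

/-- the tail at the `j`-th level -/
lemma Bern.tail_level (h : Bern μ X g) (T : Finset ι) {j : ℕ} (hj : 3 ≤ j)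
    (hG : ∑ i ∈ T, g i ≤ j + 1) :
    μ.real {ω | 4 * √(j * Real.log j) ≤ |∑ i ∈ T, X i ω - ∑ i ∈ T, g i|} ≤
      2 * Real.exp 1 * (1 / (j : ℝ) ^ 3) := by
  have hj0 : (0 : ℝ) < j := by exact_mod_cast (by omega : 0 < j)
  have hj1 : (1 : ℝ) ≤ j := by exact_mod_cast (by omega : 1 ≤ j)
  have hl0 : 0 ≤ Real.log j := Real.log_nonneg hj1
  have hlj : Real.log j ≤ j := (Real.log_le_sub_one_of_pos hj0).trans (by linarith)
  set t : ℝ := √(Real.log j / j) with ht
  have ht2 : t ^ 2 = Real.log j / j := Real.sq_sqrt (by positivity)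
  have ht1 : t ≤ 1 := by
    rw [ht, Real.sqrt_le_one]
    rwa [div_le_one hj0]
  have h1 := h.tails T (Real.sqrt_nonneg _) ht1 (4 * √(j * Real.log j))
  refine h1.trans ?_
  have h2 : t * (4 * √(j * Real.log j)) = 4 * Real.log j := by
    have : t * √(j * Real.log j) = Real.log j := by
      rw [ht, ← Real.sqrt_mul (by positivity)]
      have : Real.log j / j * (j * Real.log j) = Real.log j ^ 2 := by
        field_simp
      rw [this, Real.sqrt_sq hl0]
    linarith
  have h3 : t ^ 2 * ∑ i ∈ T, g i ≤ Real.log j + 1 := by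
    rw [ht2]
    calc Real.log j / j * ∑ i ∈ T, g i ≤ Real.log j / j * (j + 1) := by gcongr
      _ = Real.log j + Real.log j / j := by field_simp
      _ ≤ _ := by
        have : Real.log j / j ≤ 1 := by rwa [div_le_one hj0]
        linarith
  have h4 : Real.exp (t ^ 2 * ∑ i ∈ T, g i - t * (4 * √(j * Real.log j))) ≤
      Real.exp 1 * (1 / (j : ℝ) ^ 3) := by
    have h5 : Real.exp 1 * (1 / (j : ℝ) ^ 3) = Real.exp (1 - 3 * Real.log j) := by
      rw [Real.exp_sub, show 3 * Real.log (j : ℝ) = Real.log ((j : ℝ) ^ 3) by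
        rw [Real.log_pow]; norm_num, Real.exp_log (by positivity)]
      ring
    rw [h5, Real.exp_le_exp, h2]
    linarith
  nlinarith

/-- the increasing sequence of finite sets of indices -/
structure Lev (T : ℕ → Finset ι) (g : ι → ℝ) : Prop where
  zero : T 0 = ∅
  mono : ∀ y, T y ⊆ T (y + 1)
  step : ∀ y, ∑ i ∈ T (y + 1), g i ≤ ∑ i ∈ T y, g i + 1
  tend : Tendsto (fun y => ∑ i ∈ T y, g i) atTop atTop

/-- the strong law -/
theorem Bern.strong (h : Bern μ X g) {T : ℕ → Finset ι} (hT : Lev T g) :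
    ∀ᵐ ω ∂μ, ∀ᶠ y in atTop, |∑ i ∈ T y, X i ω - ∑ i ∈ T y, g i| ≤
      5 * √((∑ i ∈ T y, g i) * Real.log (∑ i ∈ T y, g i)) := by
  classical
  set G : ℕ → ℝ := fun y => ∑ i ∈ T y, g i with hGdef
  have hGmono : Monotone G := monotone_nat_of_le_succ fun y =>
    sum_le_sum_of_subset_of_nonneg (hT.mono y) fun i _ _ => h.nonneg i
  have hTmono : Monotone T := monotone_nat_of_le_succ hT.mono
  have hex : ∀ j : ℕ, ∃ y, (j : ℝ) ≤ G y := fun j =>
    (hT.tend.eventually_ge_atTop (j : ℝ)).exists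
  set Y : ℕ → ℕ := fun j => Nat.find (hex j) with hY
  have hY1 : ∀ j : ℕ, (j : ℝ) ≤ G (Y j) := fun j => Nat.find_spec (hex j)
  have hY2 : ∀ j, G (Y j) ≤ j + 1 := by
    intro j
    by_cases h0 : Y j = 0
    · rw [h0]
      simp only [hGdef, hT.zero, sum_empty]
      positivity
    · obtain ⟨k, hk⟩ := Nat.exists_eq_succ_of_ne_zero h0
      have h1 : ¬ ((j : ℝ) ≤ G k) := Nat.find_min (hex j) (by
        have : Nat.find (hex j) = k + 1 := hk
        omega)
      have h2 := hT.step k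
      rw [hk]
      simp only [hGdef] at h1 ⊢
      push Not at h1
      exact h2.trans (by linarith)
  have hYle : ∀ j y : ℕ, (j : ℝ) ≤ G y → Y j ≤ y := fun j y hy => Nat.find_min' (hex j) hy
  have hbc : ∀ᵐ ω ∂μ, ∀ᶠ j : ℕ in atTop, ω ∉
      {ω | 4 * √(((j + 3 : ℕ) : ℝ) * Real.log ((j + 3 : ℕ) : ℝ)) ≤
        |∑ i ∈ T (Y (j + 3)), X i ω - ∑ i ∈ T (Y (j + 3)), g i|} := by
    refine ae_eventually_notMem ?_
    have hs : Summable fun j : ℕ => 2 * Real.exp 1 * (1 / ((j + 3 : ℕ) : ℝ) ^ 3) :=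
      ((summable_nat_add_iff 3).2 (Real.summable_one_div_nat_pow.2 (by norm_num : 1 < 3))).mul_left _
    refine ne_top_of_le_ne_top hs.tsum_ofReal_ne_top (ENNReal.tsum_le_tsum fun j => ?_)
    have h1 := h.tail_level (T (Y (j + 3))) (j := j + 3) (by omega) (hY2 (j + 3))
    rw [measureReal_def] at h1
    exact ENNReal.le_ofReal_iff_toReal_le (measure_ne_top _ _) (by positivity) |>.2 h1
  filter_upwards [hbc] with ω hω
  have hN : Monotone fun y => ∑ i ∈ T y, X i ω := monotone_nat_of_le_succ fun y =>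
    sum_le_sum_of_subset_of_nonneg (hT.mono y) fun i _ _ => by
      rcases h.val i ω with h1 | h1 <;> rw [h1]
      norm_num
  obtain ⟨j₀, hj₀⟩ := eventually_atTop.1 hω
  have hω' : ∀ j : ℕ, j₀ + 3 ≤ j → |∑ i ∈ T (Y j), X i ω - G (Y j)| < 4 * √(j * Real.log j) := by
    intro j hj
    obtain ⟨k, rfl⟩ := Nat.exists_eq_add_of_le' (show 3 ≤ j by omega)
    have := hj₀ k (by omega)
    exact not_le.1 this
  filter_upwards [hT.tend.eventually_ge_atTop ((j₀ + 104 : ℕ) : ℝ)] with y hy
  set j := ⌊G y⌋₊ with hj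
  have hG0 : 0 ≤ G y := sum_nonneg fun i _ => h.nonneg i
  have hjle : (j : ℝ) ≤ G y := Nat.floor_le hG0
  have hjlt : G y < j + 1 := Nat.lt_floor_add_one _
  have hjbig : j₀ + 104 ≤ j := Nat.le_floor hy
  have h1 : Y j ≤ y := hYle j y hjle
  have h2 : y ≤ Y (j + 1) := by
    by_contra hc
    push Not at hc
    have h3 := hY1 (j + 1)
    have h4 := hGmono hc.le
    push_cast at h3
    linarith
  have h3 := hω' j (by omega)
  have h4 := hω' (j + 1) (by omega)
  have h5 := hN h1
  have h6 := hN h2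
  have h7 := hY1 j
  have h8 := hY2 (j + 1)
  simp only at h5 h6
  rw [abs_lt] at h3 h4
  push_cast at h4 h8
  have hj0 : (0 : ℝ) < j := by exact_mod_cast (by omega : 0 < j)
  have hj104 : (104 : ℝ) ≤ j := by exact_mod_cast (by omega : 104 ≤ j)
  have hl1 : 1 ≤ Real.log j := by
    rw [Real.le_log_iff_exp_le hj0]
    exact (Real.exp_one_lt_d9.le.trans (by norm_num)).trans hj104
  have hl2 : Real.log (j + 1) ≤ Real.log j + 1 / j := by
    have h9 := Real.log_le_sub_one_of_pos (show 0 < ((j : ℝ) + 1) / j by positivity)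
    rw [Real.log_div (by positivity) hj0.ne'] at h9
    have : ((j : ℝ) + 1) / j - 1 = 1 / j := by
      field_simp
      ring
    linarith
  have hs1 : √((j + 1) * Real.log (j + 1)) ≤ √(j * Real.log j) + √(Real.log j + 2) := by
    rw [Real.sqrt_le_left (by positivity)]
    have e1 := Real.sq_sqrt (show (0 : ℝ) ≤ j * Real.log j by positivity)
    have e2 := Real.sq_sqrt (show (0 : ℝ) ≤ Real.log j + 2 by positivity)
    have e3 : ((j : ℝ) + 1) * Real.log (j + 1) ≤ (j + 1) * (Real.log j + 1 / j) := by gcongr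
    have e4 : ((j : ℝ) + 1) * (Real.log j + 1 / j) = j * Real.log j + Real.log j + 1 + 1 / j := by
      field_simp
      ring
    have e5 : (1 : ℝ) / j ≤ 1 := by
      rw [div_le_one hj0]
      linarith
    nlinarith [Real.sqrt_nonneg ((j : ℝ) * Real.log j), Real.sqrt_nonneg (Real.log j + 2)]
  have hs2 : 2 + 4 * √(Real.log j + 2) ≤ √(j * Real.log j) := by
    refine Real.le_sqrt_of_sq_le ?_
    have e2 := Real.sq_sqrt (show (0 : ℝ) ≤ Real.log j + 2 by positivity)
    have e3 : (2 + 4 * √(Real.log j + 2)) ^ 2 ≤ 8 + 32 * √(Real.log j + 2) ^ 2 := by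
      nlinarith [sq_nonneg (2 - 4 * √(Real.log j + 2))]
    nlinarith
  have hs3 : √(j * Real.log j) ≤ √(G y * Real.log (G y)) := by
    refine Real.sqrt_le_sqrt ?_
    have : Real.log j ≤ Real.log (G y) := Real.log_le_log hj0 hjle
    gcongr
  rw [abs_le]
  have hsn := Real.sqrt_nonneg ((j : ℝ) * Real.log j)
  have hsn2 := Real.sqrt_nonneg (Real.log j + 2)
  have hGy : ∑ i ∈ T y, g i = G y := rfl
  rw [hGy]
  constructor <;> linarith

end Pool.Agent.U442.WP
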